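import Pool.Agent.H60.RF.Stmts

/-!
# The linear programme in dimension six
-/

set_option autoImplicit false

open Finset Real

namespace Pool.RF

open Pool.Agent.H49.Ent Pool.Agent.H32.Dense Pool.STK Pool.KA Pool.GP Pool.KRN

theorem ar6 : AR6Stmt := by
  intro L S W x M Ls Ee hL hW hx hsub h0 hlow hLs hEe hch
  -- chains with one functional
  have c0 := hch 0 {0} {1, 2, 3} (by decide) (by decide) (by decide)
  have c1 := hch 0 {1} {0, 2, 3} (by decide) (by decide) (by decide)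
  have c2 := hch 0 {2} {0, 1, 3} (by decide) (by decide) (by decide)
  have c3 := hch 0 {3} {0, 1, 2} (by decide) (by decide) (by decide)
  have e0 : ({0} : Finset (Fin 6)) ∪ {1, 2, 3} = {0, 1, 2, 3} := by decide
  have e1 : ({1} : Finset (Fin 6)) ∪ {0, 2, 3} = {0, 1, 2, 3} := by decide
  have e2 : ({2} : Finset (Fin 6)) ∪ {0, 1, 3} = {0, 1, 2, 3} := by decide
  have e3 : ({3} : Finset (Fin 6)) ∪ {0, 1, 2} = {0, 1, 2, 3} := by decide
  rw [e0] at c0
  rw [e1] at c1
  rw [e2] at c2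
  rw [e3] at c3
  -- chains with two functionals
  have p0 := hch 1 {0, 1} {2, 3, 4} (by decide) (by decide) (by decide)
  have p1 := hch 1 {2, 3} {0, 1, 4} (by decide) (by decide) (by decide)
  have q0 := (hEe ({0, 1} ∪ {2, 3, 4})).1
  have q1 := (hEe ({2, 3} ∪ {0, 1, 4})).1
  -- submodularity
  have s01 := hsub 0 {0} {1}
  have s23 := hsub 0 {2} {3}
  have sp := hsub 1 {0, 1} {2, 3}
  have u01 : ({0} : Finset (Fin 6)) ∪ {1} = {0, 1} := by decide
  have u23 : ({2} : Finset (Fin 6)) ∪ {3} = {2, 3} := by decide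
  have up : ({0, 1} : Finset (Fin 6)) ∪ {2, 3} = {0, 1, 2, 3} := by decide
  have i01 : ({0} : Finset (Fin 6)) ∩ {1} = ∅ := by decide
  have i23 : ({2} : Finset (Fin 6)) ∩ {3} = ∅ := by decide
  have ip : ({0, 1} : Finset (Fin 6)) ∩ {2, 3} = ∅ := by decide
  rw [u01, i01, h0] at s01
  rw [u23, i23, h0] at s23
  rw [up, ip, h0] at sp
  have l01 := hlow 0 {0, 1}
  have l23 := hlow 0 {2, 3}
  have lp := hlow 1 {0, 1, 2, 3}
  have d0 := hLs {0}
  have d1 := hLs {1}
  have d2 := hLs {2}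
  have d3 := hLs {3}
  have hE := hEe {0, 1, 2, 3}
  rw [Finset.card_singleton] at d0 d1 d2 d3
  push_cast at *
  simp only [Fin.val_zero, Fin.val_one, Nat.cast_zero, Nat.cast_one] at *
  linarith [hE.1, hE.2]

end Pool.RF
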