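import Pool.Agent.H60.RF.Stmts

/-! # Row CLB -/

set_option autoImplicit false

open Finset Real

namespace Pool.RF

open Pool.Agent.H49.Ent Pool.Agent.H32.Dense Pool.STK Pool.KA Pool.GP Pool.KRN

theorem clb : CLBStmt := by
  intro Ω T κ _ m k J N G g p hp hg A a ha W d r n₀ t hmin ht
  classical
  obtain ⟨q, hq⟩ : ∃ q, q = cond p A a := ⟨_, rfl⟩
  have hql : IsLaw q := ⟨fun ω => hq ▸ cond_nonneg hp.nonneg A a ω, hq ▸ sum_cond p A ha.ne'⟩
  have hqp : ∀ ω, 0 < q ω → 0 < p ω ∧ A ω = a := fun ω h =>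
    (cond_pos_iff hp.nonneg A a ω).mp (hq ▸ h)
  -- the cross entropy
  have h6 : CH q (fun ω => fl (g n₀) (d ω)) W + ((k * (J - g n₀) : ℕ) : ℝ) * Real.log 2 ≤
      Ex q (fun ω => fi p W d J k g n₀ ω) + m * Real.log 7 := by
    have h7 := CH_le_nbr hp hql (fun ω h => (hqp ω h).1) W (fun ω => fl (g n₀) (d ω))
    have h8 : Ex q (fun ω => fi p W d J k g n₀ ω) =
        Ex q (fun ω => -Real.log (Nr p W (fun ω => fl (g n₀) (d ω)) (W ω) (fl (g n₀) (d ω)) /
          law p W (W ω))) + ((k * (J - g n₀) : ℕ) : ℝ) * Real.log 2 := by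
      unfold fi
      rw [Ex_add, Ex_const hql.sum_one]
    rw [h8]
    linarith
  have h1 : Ex q (fun ω => In p W d J r ω) + Real.log (law p A a) ≤
      CH q (fun ω => prj (2 ^ (J + 1)) r (fl J (d ω))) W := by
    rw [hq]
    exact CH_cond_ge hp A a ha _ W
  -- the scale
  have h2 : Ex q (fun ω => fi p W d J k g n₀ ω) ≤ Ex q (fun ω => fm p W d J k g N ω) := by
    refine Ex_mono hql.nonneg fun ω hω => ?_
    obtain ⟨hpω, hA⟩ := hqp ω hω
    unfold fm
    refine Finset.le_inf' _ _ fun n hn => ?_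
    exact hmin ω hA hpω n (by rw [Finset.mem_range] at hn; omega)
  -- the excess
  obtain ⟨f, hf⟩ : ∃ f : Ω → ℝ, f = fun ω => max 0 (fm p W d J k g N ω - In p W d J r ω -
      Real.log (cs k m G * ((N : ℝ) + 1))) := ⟨_, rfl⟩
  have hf0 : ∀ ω, 0 ≤ f ω := fun ω => by
    rw [hf]
    exact le_max_left _ _
  have h3 : Ex q f ≤ t / law p A a := by
    rw [le_div_iff₀ ha]
    refine le_trans ?_ (show Ex p f ≤ t by rw [hf]; exact ht)
    unfold Ex
    rw [Finset.sum_mul]
    refine Finset.sum_le_sum fun ω _ => ?_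
    rw [hq]
    unfold Pool.Agent.H49.Ent.cond
    split_ifs with h
    · have : p ω / law p A a * f ω * law p A a = p ω * f ω := by
        field_simp
      rw [this]
    · rw [zero_mul, zero_mul]
      exact mul_nonneg (hp.nonneg ω) (hf0 ω)
  have h4 : Ex q (fun ω => fm p W d J k g N ω) ≤ Ex q (fun ω => In p W d J r ω) +
      (Ex q f + Real.log (cs k m G * ((N : ℝ) + 1))) := by
    have h5 : Ex q (fun ω => fm p W d J k g N ω) ≤ Ex q (fun ω => In p W d J r ω +
        (f ω + Real.log (cs k m G * ((N : ℝ) + 1)))) := by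
      refine Ex_mono hql.nonneg fun ω _ => ?_
      have : fm p W d J k g N ω - In p W d J r ω - Real.log (cs k m G * ((N : ℝ) + 1)) ≤ f ω := by
        rw [hf]
        exact le_max_right _ _
      linarith
    rw [Ex_add, Ex_add, Ex_const hql.sum_one] at h5
    exact h5
  rw [← hq]
  linarith

end Pool.RF
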