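import Pool.Agent.H60.RF.Stmts
import Pool.Agent.H9.KRN.Top

/-! # Row DIM -/

set_option autoImplicit false

namespace Pool.RF

open Pool.KRN

theorem dim (h6 : AR6Stmt) (h7 : AR7Stmt) (hE : EFRStmt) : DIMStmt := by
  have e6 : EF 6 4 := hE 6 4 (by norm_num) (by norm_num) (by norm_num)
    Pool.KAL.KP1.kp_one Pool.K2S.kp_2 Pool.PB.kp3_thm h6
  have e7 : EF 7 (49 / 11) := hE 7 (49 / 11) (by norm_num) (by norm_num) (by norm_num)
    Pool.KAL.KP1.kp_one Pool.K2S.kp_2 Pool.PB.kp3_thm h7
  constructor
  · intro K hK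
    have h : DensG 6 2 := by
      have h := Pool.KRN73.geoOne 6 4 (by norm_num) (by norm_num) (by norm_num) e6
      norm_num at h
      exact h
    have h := t_geo2 6 2 (by norm_num) (by norm_num) h K hK
    refine le_trans (le_of_eq ?_) h
    norm_num
  · intro K hK
    have h : DensG 7 (28 / 11) := by
      have h := Pool.KRN73.geoOne 7 (49 / 11) (by norm_num) (by norm_num) (by norm_num) e7
      norm_num at h
      exact h
    have h := t_geo2 7 (28 / 11) (by norm_num) (by norm_num) h K hK
    refine le_trans (le_of_eq ?_) h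
    norm_num

end Pool.RF
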