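import Pool.Agent.H60.RF.Stmts
import Pool.Agent.H9.KRN.MainP

/-!
# The entropy bound from the linear programme
-/

set_option autoImplicit false

open Finset Real

namespace Pool.RF

open Pool.Agent.H49.Ent Pool.Agent.H32.Dense Pool.STK Pool.KA Pool.GP Pool.KRN

theorem clsB_lpb (h1 : GPBStmt) (h2 : GDBStmt) (h3 : RMCStmt) (h4 : CLMStmt) (h5 : KPZStmt)
    (m : ℕ) (s : ℝ) (hm : 6 ≤ m) (hm' : m ≤ 7) (k1 : KP 1) (k2 : KP 2) (k3 : KP 3)
    (hlp : LPB m s) : ClsB m s := by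
  classical
  intro ε hε
  have hlog2 : 0 < Real.log 2 := Real.log_pos (by norm_num)
  obtain ⟨ε₄, hε₄⟩ : ∃ ε₄ : ℝ, ε₄ = ε / 200 * Real.log 2 := ⟨_, rfl⟩
  have hε₄0 : 0 < ε₄ := by rw [hε₄]; positivity
  obtain ⟨N, hN⟩ := exists_nat_ge (2 * (3 * Real.log 2) / ε₄ + 1)
  have hN1 : (1 : ℝ) ≤ N := by
    have : 0 ≤ 2 * (3 * Real.log 2) / ε₄ := by positivity
    linarith
  have hN0 : 0 < N := by
    have : (0 : ℝ) < N := by linarith
    exact_mod_cast this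
  have hNε : 3 * Real.log 2 / N ≤ ε₄ / 2 := by
    have e1 : 2 * (3 * Real.log 2) / ε₄ ≤ N := by linarith
    rw [div_le_iff₀ hε₄0] at e1
    rw [div_le_div_iff₀ (by linarith) (by norm_num)]
    linarith
  obtain ⟨K, hmK, hcls⟩ := h3 m N
  obtain ⟨C, ρ, hρ, JG, hbox⟩ := h1 m K (by omega)
  obtain ⟨t, ht⟩ : ∃ t : ℝ, t = (Fintype.card (Finset (Fin K) × (Fin 3 → Fin K)) : ℝ) / ρ :=
    ⟨_, rfl⟩
  have ht0 : 0 ≤ t := by rw [ht]; positivity
  obtain ⟨θ0, hθ0, J0, hJ0⟩ := imgB_of_KP h5 hε₄0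
  obtain ⟨θ1, hθ1, J1, hJ1⟩ := imgB_of_KP k1 hε₄0
  obtain ⟨θ2, hθ2, J2, hJ2⟩ := imgB_of_KP k2 hε₄0
  obtain ⟨θ3, hθ3, J3, hJ3⟩ := imgB_of_KP k3 hε₄0
  obtain ⟨θ', hθ'⟩ : ∃ θ' : ℝ, θ' = min ε₄ (min θ0 (min θ1 (min θ2 θ3))) := ⟨_, rfl⟩
  have hθ'0 : 0 < θ' := by rw [hθ']; positivity
  have l4 : θ' ≤ ε₄ := by rw [hθ']; exact min_le_left _ _
  have lr : θ' ≤ min θ0 (min θ1 (min θ2 θ3)) := by rw [hθ']; exact min_le_right _ _
  have l0 : θ' ≤ θ0 := lr.trans (min_le_left _ _)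
  have lr1 := lr.trans (min_le_right _ _)
  have l1 : θ' ≤ θ1 := lr1.trans (min_le_left _ _)
  have lr2 := lr1.trans (min_le_right _ _)
  have l2 : θ' ≤ θ2 := lr2.trans (min_le_left _ _)
  have l3 : θ' ≤ θ3 := lr2.trans (min_le_right _ _)
  -- constants
  obtain ⟨B₀, hB₀⟩ : ∃ B₀ : ℝ, B₀ = |Cr m N 0 C| := ⟨_, rfl⟩
  have hB₀0 : 0 ≤ B₀ := by rw [hB₀]; exact abs_nonneg _
  refine ⟨(Fin m → Fin K) × (Fin 3 → Fin (N + 1)), inferInstance, ?_⟩
  intro c₀ hc₀0 hc₀1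
  obtain ⟨Jb, hJb⟩ := exists_nat_ge ((B₀ + 3 * Real.log 2) / (ε₄ / 2) +
    (-Real.log c₀) / ε₄ + (t / c₀) / ε₄ + 1)
  have hlc : 0 ≤ -Real.log c₀ := by
    rw [neg_nonneg]
    exact Real.log_nonpos hc₀0.le hc₀1
  have htc : 0 ≤ t / c₀ := by positivity
  refine ⟨θ', hθ'0, max Jb (max JG (max J0 (max J1 (max J2 J3)))), ?_⟩
  intro J hJ F hu
  have b0 : Jb ≤ J := le_trans (le_max_left _ _) hJ
  have b' : max JG (max J0 (max J1 (max J2 J3))) ≤ J := le_trans (le_max_right _ _) hJ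
  have bG : JG ≤ J := le_trans (le_max_left _ _) b'
  have b'1 := le_trans (le_max_right _ _) b'
  have bj0 : J0 ≤ J := le_trans (le_max_left _ _) b'1
  have b'2 := le_trans (le_max_right _ _) b'1
  have b1 : J1 ≤ J := le_trans (le_max_left _ _) b'2
  have b'3 := le_trans (le_max_right _ _) b'2
  have b2 : J2 ≤ J := le_trans (le_max_left _ _) b'3
  have b3 : J3 ≤ J := le_trans (le_max_right _ _) b'3
  have hJr : (Jb : ℝ) ≤ J := by exact_mod_cast b0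
  have t1 : 0 ≤ (B₀ + 3 * Real.log 2) / (ε₄ / 2) := by positivity
  have t3 : 0 ≤ (-Real.log c₀) / ε₄ := div_nonneg hlc hε₄0.le
  have t4 : 0 ≤ (t / c₀) / ε₄ := div_nonneg htc hε₄0.le
  have c1 : B₀ + 3 * Real.log 2 ≤ ε₄ / 2 * J := by
    have e1 : (B₀ + 3 * Real.log 2) / (ε₄ / 2) ≤ J := by linarith
    rw [div_le_iff₀ (by positivity)] at e1
    linarith
  have c3 : -Real.log c₀ ≤ ε₄ * J := by
    have e1 : (-Real.log c₀) / ε₄ ≤ J := by linarith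
    rw [div_le_iff₀ hε₄0] at e1
    linarith
  have c4 : t / c₀ ≤ ε₄ * J := by
    have e1 : (t / c₀) / ε₄ ≤ J := by linarith
    rw [div_le_iff₀ hε₄0] at e1
    linarith
  have hJ1' : (1 : ℝ) ≤ J := by linarith
  have hJ0' : (0 : ℝ) < J := by linarith
  have hp := F.isLaw.nonneg
  -- the grid and the classes
  obtain ⟨g, hgdef⟩ : ∃ g : ℕ → ℕ, g = fun n => min n N * J / N := ⟨_, rfl⟩
  obtain ⟨G, hGdef⟩ : ∃ G : ℕ, G = J / N + 1 := ⟨_, rfl⟩
  have hg : Grid J N G g := by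
    rw [hgdef, hGdef]
    exact exists_grid J hN0
  obtain ⟨Sx, hSx, hSc⟩ := hbox J bG
  obtain ⟨b, hbS, hgood⟩ := h2 F hg Sx ρ hρ hSc
  rw [← ht] at hgood
  have hG := hSx b hbS
  obtain ⟨A, hA⟩ := hcls (Ω := F.Ω) (fun v n ω => fi F.p (ls F (mq b) v) F.d J 3 g n ω)
  -- the constant
  have hGr : (G : ℝ) ≤ J / N + 1 := by
    rw [hGdef]
    push_cast
    have : ((J / N : ℕ) : ℝ) ≤ (J : ℝ) / N := Nat.cast_div_le
    linarith
  have hCr : Cr m N G C = Cr m N 0 C + 3 * (G : ℝ) * Real.log 2 := by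
    unfold Cr cs
    rw [Real.log_mul (by positivity) (by positivity), Real.log_mul (by positivity) (by positivity),
      Real.log_mul (by positivity) (by positivity), Real.log_mul (by positivity) (by positivity),
      Real.log_pow 2, Real.log_pow 2]
    push_cast
    ring
  have hCrJ : Cr m N G C ≤ ε₄ * J := by
    have e1 : 3 * (G : ℝ) * Real.log 2 ≤ 3 * ((J : ℝ) / N + 1) * Real.log 2 := by gcongr
    have e2 : 3 * ((J : ℝ) / N + 1) * Real.log 2 = (3 * Real.log 2 / N) * J + 3 * Real.log 2 := by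
      ring
    have e3 : (3 * Real.log 2 / N) * J ≤ ε₄ / 2 * J := mul_le_mul_of_nonneg_right hNε hJ0'.le
    have e4 := le_abs_self (Cr m N 0 C)
    rw [← hB₀] at e4
    rw [hCr]
    linarith
  refine ⟨A, ?_⟩
  intro a ha hl hTm hD
  have ha0 : 0 < law F.p A a := lt_of_lt_of_le hc₀0 ha
  -- a sample in the class
  obtain ⟨ω₀, hω₀⟩ : ∃ ω, A ω = a := by
    by_contra hcon
    push Not at hcon
    have : law F.p A a = 0 := by
      unfold law
      exact Finset.sum_eq_zero fun ω _ => if_neg (hcon ω)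
    linarith
  obtain ⟨hinj, -⟩ := hω₀ ▸ hA ω₀
  have hI : ∀ j ≤ 3, ImgB (F.res A a hl) j (ε₄ * J) := by
    intro j hj
    interval_cases j
    · exact hJ0 J bj0 _ _ (tm_mono hTm (mul_le_mul_of_nonneg_right l0 hJ0'.le))
    · exact hJ1 J b1 _ _ (tm_mono hTm (mul_le_mul_of_nonneg_right l1 hJ0'.le))
    · exact hJ2 J b2 _ _ (tm_mono hTm (mul_le_mul_of_nonneg_right l2 hJ0'.le))
    · exact hJ3 J b3 _ _ (tm_mono hTm (mul_le_mul_of_nonneg_right l3 hJ0'.le))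
  have hDb' : m * (J * Real.log 2) - ε₄ * J ≤ H (cond F.p A a) (F.D J) := by
    have : θ' * J ≤ ε₄ * J := mul_le_mul_of_nonneg_right l4 hJ0'.le
    linarith
  have hlogP : -Real.log (law F.p A a) ≤ ε₄ * J := by
    have := Real.log_le_log hc₀0 ha
    linarith
  have htl : t / law F.p A a ≤ ε₄ * J := by
    refine le_trans ?_ c4
    exact div_le_div_of_nonneg_left ht0 hc₀0 ha
  have hεJ : 0 ≤ ε₄ * J := by positivity
  have hfin := h4 F hm hm' hmK hu hg b hG t hgood A a ha0 hl (ε₄ * J) (ε₄ * J) hεJ hεJ hI hDb'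
    a.1 (fun i => (a.2 i : ℕ)) hinj (by
      intro i α hα ω hω _ n' hn'
      exact (hω ▸ hA ω).2 i α hα n' hn') s hlp
  have e5 : (s - ε) * (J * Real.log 2) = s * (J * Real.log 2) - 200 * (ε₄ * J) := by
    rw [hε₄]
    ring
  rw [e5]
  linarith

theorem efr (h1 : GPBStmt) (h2 : GDBStmt) (h3 : RMCStmt) (h4 : CLMStmt) (h5 : KPZStmt) :
    EFRStmt := by
  intro m s hm hm' hs k1 k2 k3 hlp
  exact ef_of_cls hs (clsB_lpb h1 h2 h3 h4 h5 m s hm hm' k1 k2 k3 hlp)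

end Pool.RF
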