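import Pool.Agent.H60.RF.GDB
import Pool.Agent.H60.RF.CLB
import Pool.Agent.H60.RF.DIM
import Pool.Agent.H60.RF.EFR
import Pool.Agent.H55.RF.AR6
import Pool.Agent.H14.RF.AR7
import Pool.Agent.H14.RF.RMC
import Pool.Agent.H14.RF.RMT
import Pool.Agent.H13.RF.CLM
import Pool.Agent.H17.RF.FUB
import Pool.Agent.H17.RF.SUB
import Pool.Agent.H22.RF.ENT
import Pool.Agent.H22.RF.LSA
import Pool.Agent.H38.RF.CHT
import Pool.Agent.H38.RF.CLC
import Pool.Agent.H52.RF.PRB
import Pool.Agent.H54.RF.GPB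

/-!
# Kakeya sets in dimensions seven and eight: assembly
-/

set_option autoImplicit false

namespace Pool.RF

theorem dim_all : DIMStmt := by
  have hclc : CLCStmt := clc clb cht lsa
  have hsub : SUBStmt := sub lsa
  have hent : ENTStmt := ent
  have hgdb : GDBStmt := gdb prb fub
  have hrmc : RMCStmt := rmc rmt
  exact dim ar6 ar7 (efr gpb hgdb hrmc (clm hclc hsub hent) kpz)

end Pool.RF

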