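import Pool.Agent.H60.RF.Stmts

/-!
# A good matrix
-/

set_option autoImplicit false

open Finset Real

namespace Pool.RF

open Pool.Agent.H49.Ent Pool.Agent.H32.Dense Pool.STK Pool.KA Pool.GP Pool.KRN

theorem gdb (h1 : PRBStmt) (h2 : FUBStmt) : GDBStmt := by
  classical
  intro m J N G K g F hg S ρ hρ hS
  have hp := F.isLaw
  obtain ⟨c₁, hc₁⟩ : ∃ c₁ : ℝ, c₁ = cs 3 m G * ((N : ℝ) + 1) := ⟨_, rfl⟩
  have hc₁0 : 0 < c₁ := by
    rw [hc₁]
    exact mul_pos (cs_pos 3 m G) (by positivity)
  -- one pair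
  have key : ∀ (s : Finset (Fin K)) (B : Fin 3 → Fin K), Function.Injective B → (∀ l, B l ∉ s) →
      ∑ b : Mat J K m, Ex F.p (ex F b N G g s B) ≤ (Fintype.card (Mat J K m) : ℝ) := by
    intro s B hB hBs
    have hpt : ∀ ω, 0 < F.p ω → ∑ b : Mat J K m, Real.exp (fm F.p (ls F (mq b) s) F.d J 3 g N ω -
        In F.p (ls F (mq b) s) F.d J (fun l => b (B l)) ω) ≤
        c₁ * (Fintype.card (Mat J K m) : ℝ) := by
      intro ω hω
      refine h2 (R := Fin m → Fin (2 ^ (J + 1))) B hB (fun b : Mat J K m =>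
        Real.exp (fm F.p (ls F (mq b) s) F.d J 3 g N ω -
          In F.p (ls F (mq b) s) F.d J (fun l => b (B l)) ω)) c₁ ?_
      intro b
      have hls : ∀ r : Fin 3 → Fin m → Fin (2 ^ (J + 1)),
          ls F (mq (Function.extend B r b)) s = ls F (mq b) s := by
        intro r
        funext ω' i
        unfold ls
        split_ifs with hi
        · have e0 : Function.extend B r b i = b i :=
            Function.extend_apply' _ _ _ (by rintro ⟨l, rfl⟩; exact hBs l hi)
          have e : r1 (mq (Function.extend B r b)) i = r1 (mq b) i := by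
            funext l s'
            unfold r1 mq
            rw [e0]
          rw [e]
        · rfl
      have hB' : ∀ r : Fin 3 → Fin m → Fin (2 ^ (J + 1)),
          (fun l => Function.extend B r b (B l)) = r := by
        intro r
        funext l
        exact hB.extend_apply _ _ _
      have h3 := h1 (k := 3) hp hg (ls F (mq b) s) F.d F.dir ω hω
      rw [← hc₁] at h3
      refine le_trans (le_of_eq ?_) h3
      refine Finset.sum_congr rfl fun r _ => ?_
      simp only [hls r, hB' r]
    calc ∑ b : Mat J K m, Ex F.p (ex F b N G g s B)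
        = ∑ ω, F.p ω * ∑ b : Mat J K m, ex F b N G g s B ω := by
          unfold Ex
          rw [Finset.sum_comm]
          exact Finset.sum_congr rfl fun ω _ => by rw [Finset.mul_sum]
      _ ≤ ∑ ω, F.p ω * (Fintype.card (Mat J K m) : ℝ) := by
          refine Finset.sum_le_sum fun ω _ => ?_
          rcases (hp.nonneg ω).eq_or_lt with h0 | h0
          · rw [← h0, zero_mul, zero_mul]
          · refine mul_le_mul_of_nonneg_left ?_ h0.le
            have h4 : ∀ b : Mat J K m, ex F b N G g s B ω ≤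
                Real.exp (fm F.p (ls F (mq b) s) F.d J 3 g N ω -
                  In F.p (ls F (mq b) s) F.d J (fun l => b (B l)) ω) / c₁ := by
              intro b
              have e1 : Real.exp (fm F.p (ls F (mq b) s) F.d J 3 g N ω -
                  In F.p (ls F (mq b) s) F.d J (fun l => b (B l)) ω) / c₁ =
                  Real.exp (fm F.p (ls F (mq b) s) F.d J 3 g N ω -
                    In F.p (ls F (mq b) s) F.d J (fun l => b (B l)) ω - Real.log c₁) := by
                rw [Real.exp_sub _ (Real.log c₁), Real.exp_log hc₁0]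
              rw [e1]
              unfold ex
              rw [← hc₁]
              refine max_le (Real.exp_pos _).le ?_
              have := Real.add_one_le_exp (fm F.p (ls F (mq b) s) F.d J 3 g N ω -
                In F.p (ls F (mq b) s) F.d J (fun l => b (B l)) ω - Real.log c₁)
              linarith
            refine (Finset.sum_le_sum fun b _ => h4 b).trans ?_
            rw [← Finset.sum_div, div_le_iff₀ hc₁0, mul_comm]
            exact hpt ω h0
      _ = (Fintype.card (Mat J K m) : ℝ) := by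
          rw [← Finset.sum_mul, hp.sum_one, one_mul]
  -- the choice
  obtain ⟨Q, hQ⟩ : ∃ Q : ℝ, Q = (Fintype.card (Finset (Fin K) × (Fin 3 → Fin K)) : ℝ) := ⟨_, rfl⟩
  have hQ0 : 0 ≤ Q := by rw [hQ]; positivity
  rw [← hQ]
  have hex0 : ∀ (b : Mat J K m) (s : Finset (Fin K)) (B : Fin 3 → Fin K),
      0 ≤ Ex F.p (ex F b N G g s B) := fun b s B =>
    Ex_nonneg hp.nonneg fun ω _ => le_max_left _ _
  obtain ⟨Φ, hΦ⟩ : ∃ Φ : Mat J K m → ℝ, Φ = fun b => ∑ i : Finset (Fin K) × (Fin 3 → Fin K),
    (if Function.Injective i.2 ∧ ∀ l, i.2 l ∉ i.1 then Ex F.p (ex F b N G g i.1 i.2) else 0) :=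
    ⟨_, rfl⟩
  have hterm : ∀ (b : Mat J K m) (i : Finset (Fin K) × (Fin 3 → Fin K)),
      0 ≤ (if Function.Injective i.2 ∧ ∀ l, i.2 l ∉ i.1 then Ex F.p (ex F b N G g i.1 i.2)
        else 0) := by
    intro b i
    split_ifs
    exacts [hex0 b _ _, le_rfl]
  have hΦ0 : ∀ b, 0 ≤ Φ b := by
    intro b
    rw [hΦ]
    exact Finset.sum_nonneg fun i _ => hterm b i
  have hcard : (0 : ℝ) < (Fintype.card (Mat J K m) : ℝ) := by exact_mod_cast Fintype.card_pos
  have hsum : ∑ b, Φ b ≤ Q * (Fintype.card (Mat J K m) : ℝ) := by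
    rw [hΦ]
    simp only
    rw [Finset.sum_comm]
    have h3 : ∀ i : Finset (Fin K) × (Fin 3 → Fin K), ∑ b : Mat J K m,
        (if Function.Injective i.2 ∧ ∀ l, i.2 l ∉ i.1 then Ex F.p (ex F b N G g i.1 i.2) else 0) ≤
        (Fintype.card (Mat J K m) : ℝ) := by
      intro i
      split_ifs with hi
      · exact key i.1 i.2 hi.1 hi.2
      · rw [Finset.sum_const_zero]
        exact hcard.le
    refine (Finset.sum_le_sum fun i _ => h3 i).trans ?_
    rw [Finset.sum_const, Finset.card_univ, nsmul_eq_mul, hQ]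
  have hSne : S.Nonempty := by
    rw [← Finset.card_pos]
    have : (0 : ℝ) < (S.card : ℝ) := lt_of_lt_of_le (mul_pos hρ hcard) hS
    exact_mod_cast this
  obtain ⟨b, hbS, hb⟩ : ∃ b ∈ S, Φ b ≤ Q / ρ := by
    by_contra hcon
    push Not at hcon
    have h3 : ∑ _b ∈ S, Q / ρ < ∑ b ∈ S, Φ b := Finset.sum_lt_sum_of_nonempty hSne hcon
    rw [Finset.sum_const, nsmul_eq_mul] at h3
    have h4 : ∑ b ∈ S, Φ b ≤ ∑ b, Φ b :=
      Finset.sum_le_sum_of_subset_of_nonneg (Finset.subset_univ S) fun b _ _ => hΦ0 b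
    have h5 : Q * (Fintype.card (Mat J K m) : ℝ) ≤ (S.card : ℝ) * (Q / ρ) := by
      rw [mul_div_assoc', le_div_iff₀ hρ]
      have := mul_le_mul_of_nonneg_left hS hQ0
      linarith
    linarith
  refine ⟨b, hbS, ?_⟩
  intro s B hB hBs
  refine le_trans ?_ hb
  rw [hΦ]
  have h3 := Finset.single_le_sum (f := fun i : Finset (Fin K) × (Fin 3 → Fin K) =>
    (if Function.Injective i.2 ∧ ∀ l, i.2 l ∉ i.1 then Ex F.p (ex F b N G g i.1 i.2) else 0))
    (fun i _ => hterm b i) (Finset.mem_univ (s, B))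
  refine le_trans (le_of_eq ?_) h3
  simp only
  rw [if_pos ⟨hB, hBs⟩]

end Pool.RF
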