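import Pool.Agent.H60.RF.Stmts

/-!
# The Kakeya inequality in dimension zero
-/

set_option autoImplicit false

open Finset Real

namespace Pool.RF

open Pool.Agent.H49.Ent Pool.Agent.H32.Dense Pool.STK Pool.KA Pool.GP Pool.KRN

theorem kpz : KPZStmt := by
  intro ε hε
  refine ⟨1, one_pos, 0, fun J _ F _ => ?_⟩
  have key : ∀ {T : Type} (X : F.Ω → Fin 0 → ℤ) (W : F.Ω → T), CH F.p X W = 0 := by
    intro T X W
    unfold CH
    have : H F.p (fun ω => (X ω, W ω)) = H F.p W :=
      H_congr F.isLaw.nonneg (fun ω ω' _ _ h => Prod.ext (Subsingleton.elim _ _) h)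
        (fun ω ω' _ _ h => (Prod.ext_iff.mp h).2)
    rw [this, sub_self]
  unfold Fam.V
  rw [key, key]
  have : 0 ≤ ε * J := by positivity
  push_cast
  linarith

end Pool.RF
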