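import Pool.Agent.H9.KRN.Sum
import Pool.Agent.H9.KRN.Pair

/-!
# Random functionals: statements

Unit: `L = J log 2`. `m` = dimension of the directions. All functionals are the rows of a random
matrix `b : Mat J K m`; `ls F (mq b) s` is what the functionals in `s` see of the line.
Conventions as in `Pool/Agent/H9/KRN` (read Lin, Nbr, Prj, Gen, Cls, Main, Sum, MainP there: most
rows are variants of proofs in these files, and the useful lemmas are named in the docstrings).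
-/

set_option autoImplicit false

open Finset Real

namespace Pool.RF

open Pool.Agent.H49.Ent Pool.Agent.H32.Dense Pool.STK Pool.KA Pool.GP Pool.KRN

/-! ### Definitions -/

/-- The minimum over the scales of the informations `fi`. -/
noncomputable def fm {Ω T : Type} [Fintype Ω] {m : ℕ} (p : Ω → ℝ) (W : Ω → T)
    (d : Ω → Fin m → ℝ) (J k : ℕ) (g : ℕ → ℕ) (N : ℕ) (ω : Ω) : ℝ :=
  (Finset.range (N + 1)).inf' ⟨0, Finset.mem_range.mpr (Nat.succ_pos N)⟩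
    (fun n => fi p W d J k g n ω)

/-- The information of the projection by `r`, given `W`. -/
noncomputable def In {Ω T : Type} [Fintype Ω] {m k : ℕ} (p : Ω → ℝ) (W : Ω → T)
    (d : Ω → Fin m → ℝ) (J : ℕ) (r : Mat J k m) (ω : Ω) : ℝ :=
  -Real.log (law p (fun ω => (prj (2 ^ (J + 1)) r (fl J (d ω)), W ω))
    (prj (2 ^ (J + 1)) r (fl J (d ω)), W ω) / law p W (W ω))

/-- The lines seen by the functionals in `s`. -/
noncomputable def ls {m J K : ℕ} (F : Pool.KA.Fam m J) (a : Fin K → Fin m → ℝ)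
    (s : Finset (Fin K)) (ω : F.Ω) : Fin K → Option ((Fin 1 → ℤ) × (Fin 1 → ℤ)) :=
  fun i => if i ∈ s then some (Lb F (r1 a i) ω) else none

/-- The positive part of the excess. -/
noncomputable def ex {m J K : ℕ} (F : Pool.KA.Fam m J) (b : Mat J K m) (N G : ℕ) (g : ℕ → ℕ)
    (s : Finset (Fin K)) (B : Fin 3 → Fin K) (ω : F.Ω) : ℝ :=
  max 0 (fm F.p (ls F (mq b) s) F.d J 3 g N ω -
    In F.p (ls F (mq b) s) F.d J (fun l => b (B l)) ω - Real.log (cs 3 m G * ((N : ℝ) + 1)))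

/-- A good matrix: bounded expected excess for all disjoint `s`, `B`. -/
def Good {m J K : ℕ} (F : Pool.KA.Fam m J) (b : Mat J K m) (N G : ℕ) (g : ℕ → ℕ) (t : ℝ) : Prop :=
  ∀ (s : Finset (Fin K)) (B : Fin 3 → Fin K), Function.Injective B → (∀ l, B l ∉ s) →
    Ex F.p (ex F b N G g s B) ≤ t

/-- The constant of an inverse matrix. -/
noncomputable def KC (m C : ℕ) : ℝ := m * Real.log (2 * ((C + 1 : ℕ) : ℝ) + 1)

/-- The rounding constant. -/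
noncomputable def Cr (m N G C : ℕ) : ℝ :=
  2 * KC m C + 20 * (m * Real.log 7) + Real.log (cs 3 m G * ((N : ℝ) + 1))

/-- The linear programme: `s` is a lower bound. Levels `x 0, x 1, x 2` for `1, 2, 3` functionals;
`M i α = H(l_α | D_(x i))`, `Ls α = H(l_α)`, `Ee α = H(D | l_α)`. -/
def LPB (m : ℕ) (s : ℝ) : Prop :=
  ∀ (L S W : ℝ) (x : Fin 3 → ℝ) (M : Fin 3 → Finset (Fin m) → ℝ) (Ls Ee : Finset (Fin m) → ℝ),
    0 ≤ L → 0 ≤ W → (∀ i, 0 ≤ x i ∧ x i ≤ L) →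
    (∀ i α β, M i (α ∪ β) + M i (α ∩ β) ≤ M i α + M i β) → (∀ i, M i ∅ = 0) →
    (∀ i α, Ls α - (m : ℝ) * x i - W ≤ M i α) →
    (∀ α, Ls α ≤ 2 * (α.card : ℝ) * L + W) →
    (∀ α, 0 ≤ Ee α ∧ (m : ℝ) * L - Ls α - W ≤ Ee α) →
    (∀ (i : Fin 3) (α β : Finset (Fin m)), α.card = (i : ℕ) + 1 → β.card = 3 → Disjoint α β →
      (((i : ℕ) : ℝ) + 4) * L + (M i α - Ls α + m * x i) - 3 * x i + Ee (α ∪ β) ≤ S + W) →
    s * L ≤ S + 10 * W

/-! ### Rows -/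

/-- (PRB) Pointwise average over the projections.
PROOF. `exp (-In) = law(prj, W)/law W` (positive as `0 < p ω`, `law_pos`), so the sum is
`exp (fm) / law p W (W ω) * ∑_r law(prj_r, W)`. By `Pool.KRN.avg_le` the sum over `r` divided by the
number of matrices is `≤ ∑_(n ≤ N) Nr_n * (cs / 2 ^ (k (J - g n)))`, and
`Nr_n / law W / 2 ^ (k (J - g n)) = exp (-fi n)` (this is `h11` in the proof of `prj_ge`) with
`exp (-fi n) ≤ exp (-fm)` since `fm ≤ fi n` (`Finset.inf'_le`). So the total is at most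
`exp fm * cs * (N + 1) * exp (-fm) * card`. Copy `h4`-`h8` from `prj_ge` (no logarithm needed). -/
def PRBStmt : Prop :=
  ∀ {Ω T : Type} [Fintype Ω] {m k J N G : ℕ} {g : ℕ → ℕ} {p : Ω → ℝ}, IsLaw p →
    Grid J N G g → ∀ (W : Ω → T) (d : Ω → Fin m → ℝ), (∀ ω s, |d ω s| ≤ 1) → ∀ ω, 0 < p ω →
    ∑ r : Mat J k m, Real.exp (fm p W d J k g N ω - In p W d J r ω) ≤
      cs k m G * ((N : ℝ) + 1) * (Fintype.card (Mat J k m) : ℝ)

/-- (FUB) Averaging over some rows first.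
`Function.extend B r b i = r l` if `i = B l`, and `= b i` if `i` is not in the range of `B`
(`Function.Injective.extend_apply`, `Function.extend_apply'`).
PROOF. The map `(b, r) ↦ (Function.extend B r b, b ∘ B)` is an involution of
`(Fin K → R) × (Fin k → R)` (check both components with `funext`, `by_cases` on `∃ l, B l = i`).
So `∑_(b, r) G (extend B r b) = ∑_(b, r) G b = card (Fin k → R) * ∑_b G b`
(`Equiv.sum_comp` with `Function.Involutive.toPerm`, `Fintype.sum_prod_type`). The left side is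
`≤ card (Fin K → R) * c * card (Fin k → R)`. Divide by `card (Fin k → R) > 0`. -/
def FUBStmt : Prop :=
  ∀ {R : Type} [Fintype R] [Nonempty R] {K k : ℕ} (B : Fin k → Fin K), Function.Injective B →
    ∀ (G : (Fin K → R) → ℝ) (c : ℝ),
    (∀ b : Fin K → R, ∑ r : Fin k → R, G (Function.extend B r b) ≤
      c * (Fintype.card (Fin k → R) : ℝ)) →
    ∑ b : Fin K → R, G b ≤ c * (Fintype.card (Fin K → R) : ℝ)

/-- (GPB) Many matrices whose rows are in general position.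
PROOF. (a) There are `a₀ : Fin K → Fin m → ℝ` and `C₀` with `GPos a₀ C₀` and
`0 ≤ a₀ i s ≤ 1 / m`: in the proof of `Pool.KRN.exists_gpos` (H9/KRN/Vdm.lean) the entries are
`i ^ s / nm i ≥ 0`, sum 1; divide them by `m` (copy the proof with `nm` replaced by `m * nm`, or
deduce `GPos (a / m) (m C)` from `GPos a C`, after adding `0 ≤ a i s` to the conclusion).
(b) Choose `h` with `2 * C₀ ≤ 2 ^ h`. Let `J + 1 ≥ h` and `S = {b | ∀ i s,
(b i s : ℕ) / 2 ^ (J + 1 - h) = c i s}` with `c i s = min ⌊2 ^ h * (m * a₀ i s)⌋₊ (2 ^ h - 1)`.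
For `b ∈ S`: both `b i s / 2 ^ (J + 1)` and `m * a₀ i s` lie in `[c / 2 ^ h, (c + 1) / 2 ^ h]`,
so `|mq b i s - a₀ i s| ≤ 2 ^ (-h) / m`, hence
`|∑_r a₀ i r x r| ≤ |∑_r mq b i r x r| + 2 ^ (-h) * max |x|`. If the last sums are `≤ δ` for all
`i ∈ s`, `card s = m`, then `max |x| ≤ C₀ (δ + 2 ^ (-h) max |x|) ≤ C₀ δ + max |x| / 2`, so
`GPos (mq b) (2 * C₀)` (`GPos.le` is `Pool.KRN.mq_le`). If `m` functionals do not exist nothing is
to be shown.
(c) For `c < 2 ^ h` exactly `2 ^ (J + 1 - h)` of the numbers in `Fin (2 ^ (J + 1))` have quotient `c`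
(at least this many is enough: the injection `e ↦ c * 2 ^ (J+1-h) + e`); so
`card S ≥ (2 ^ (J + 1 - h)) ^ (m K) = 2 ^ (-h m K) * card (Mat J K m)` (`Fintype.card_pi`,
or an injection `(Fin K → Fin m → Fin (2 ^ (J+1-h))) → S`). `ρ = 1 / 2 ^ (h m K)`, `J₀ = h`. -/
def GPBStmt : Prop :=
  ∀ m K : ℕ, 0 < m → ∃ (C : ℕ) (ρ : ℝ), 0 < ρ ∧ ∃ J₀ : ℕ, ∀ J ≥ J₀, ∃ S : Finset (Mat J K m),
    (∀ b ∈ S, GPos (mq b) C) ∧ ρ * (Fintype.card (Mat J K m) : ℝ) ≤ (S.card : ℝ)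

/-- (GDB) A good matrix. Needs PRB, FUB.
PROOF. For fixed `(s, B)` (injective, `∀ l, B l ∉ s`) and `c₁ = cs 3 m G * (N + 1) ≥ 1`:
`max 0 z ≤ exp z`, so `∑_b Ex F.p (ex F b N G g s B) ≤ ∑_b Ex F.p (fun ω => exp (fm - In) / c₁)
= Ex F.p (fun ω => (∑_b exp (fm - In)) / c₁) ≤ card (Mat J K m)`: for `ω` with `0 < p ω` apply FUB
with `R = Fin m → Fin (2 ^ (J + 1))`, `k = 3`, `G b = exp (fm(b) ω - In(b) ω)`, `c = c₁`; for
`b' = Function.extend B r b`: `ls F (mq b') s = ls F (mq b) s` (for `i ∈ s`, `b' i = b i` because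
`i` is not in the range of `B`, and row `i` of `mq b'` depends only on `b' i`), and
`(fun l => b' (B l)) = r`; so the inner sum is that of PRB.
Let `Φ b = ∑_(s, B) (if good then Ex F.p (ex F b N G g s B) else 0) ≥ 0`, the sum over the finite
type `Finset (Fin K) × (Fin 3 → Fin K)` of cardinality `Q`. So `∑_b Φ b ≤ Q * card (Mat)`. If all
`b ∈ S` had `Φ b > Q / ρ` then `Q * card ≥ ∑_(b ∈ S) Φ b > (Q / ρ) * card S ≥ Q * card` (`S` is
nonempty as `ρ * card > 0`, `Q > 0`: for `K = 0` and no injective `B` the statement `Good` is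
trivially true, take any `b ∈ S`; or use `Q + 1`-free argument: `Finset.exists_le_of_sum_le`).
So some `b ∈ S` has `Φ b ≤ Q / ρ`, and each term is `≤ Φ b`. -/
def GDBStmt : Prop :=
  ∀ {m J N G K : ℕ} {g : ℕ → ℕ} (F : Pool.KA.Fam m J), Grid J N G g →
    ∀ (S : Finset (Mat J K m)) (ρ : ℝ), 0 < ρ →
    ρ * (Fintype.card (Mat J K m) : ℝ) ≤ (S.card : ℝ) →
    ∃ b ∈ S, Good F b N G g
      ((Fintype.card (Finset (Fin K) × (Fin 3 → Fin K)) : ℝ) / ρ)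

/-- (CLB) The random block in a class.
PROOF. `q = cond p A a`. For `f ≥ 0`: `Ex q f ≤ Ex p f / law p A a` (definition of `cond`). With
`c₁ = cs k m G * (N + 1)`: `fm - In - log c₁ ≤ max 0 (..)`, so `Ex q fm ≤ Ex q In + log c₁ +
t / law`. `Pool.KRN.CH_cond_ge` (H9/KRN/Nbr.lean, with `Y ω = prj .. r (fl J (d ω))`):
`Ex q In + log law ≤ CH q (prj ..) W`. On the class `fi n₀ ≤ fm` (hypothesis for all `n ≤ N`,
`Finset.le_inf'`), so `Ex q (fi n₀) ≤ Ex q fm`; and by `CH_le_nbr`: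
`CH q (fl (g n₀) (d ·)) W + (k (J - g n₀)) log 2 ≤ Ex q (fi n₀) + m log 7` (this is `h6` of
`prj_ge`). -/
def CLBStmt : Prop :=
  ∀ {Ω T κ : Type} [Fintype Ω] {m k J N G : ℕ} {g : ℕ → ℕ} {p : Ω → ℝ}, IsLaw p →
    Grid J N G g → ∀ (A : Ω → κ) (a : κ), 0 < law p A a → ∀ (W : Ω → T) (d : Ω → Fin m → ℝ)
    (r : Mat J k m) (n₀ : ℕ) (t : ℝ),
    (∀ ω, A ω = a → 0 < p ω → ∀ n ≤ N, fi p W d J k g n₀ ω ≤ fi p W d J k g n ω) →
    Ex p (fun ω => max 0 (fm p W d J k g N ω - In p W d J r ω -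
      Real.log (cs k m G * ((N : ℝ) + 1)))) ≤ t →
    CH (cond p A a) (fun ω => fl (g n₀) (d ω)) W + ((k * (J - g n₀) : ℕ) : ℝ) * Real.log 2 +
      Real.log (law p A a) - t / law p A a - Real.log (cs k m G * ((N : ℝ) + 1)) -
      m * Real.log 7 ≤ CH (cond p A a) (fun ω => prj (2 ^ (J + 1)) r (fl J (d ω))) W

/-- (CHT) A chain of three blocks.
PROOF. As `Pool.KRN.chain` (H9/KRN/Lin.lean). Put `xb = fl J (mv b (F.x ·))`, `xc`, `xe`, `db`, `dc`,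
`de` for the directions. `V_img` turns the hypotheses into `H db ≤ CH xb F.T + E` (trivial side
information: `e1`, `e2` in `chain`), `CH dc z₁ ≤ CH xc (F.T, z₁) + E`,
`CH de z₂ ≤ CH xe (F.T, z₂) + E`. `CH_img`: each rounded image of the position is determined by
`F.X J` up to `log 3` per coordinate, so
`CH (xe, (xc, xb)) F.T ≤ CH (F.X J) F.T + (j + k + j') log 3`, and by `CH_chain` the left side is
`CH xe ((xc, xb), F.T) + CH xc (xb, F.T) + CH xb F.T`. Since `xb` is determined by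
`(F.T, Lb F b)` up to `j log 5` (`CH_pos`) and `Lb F b` is a function of `z₁`:
`CH xc (F.T, z₁) ≤ CH xc (xb, F.T) + j log 5` (as `s3` in `chain`: `CH_le_add`,
`CH_mono_cond`); in the same way `CH xe (F.T, z₂) ≤ CH xe ((xc, xb), F.T) + (j + k) log 5`. -/
def CHTStmt : Prop :=
  ∀ {m J j k j' : ℕ} {S₁ S₂ : Type} (F : Pool.KA.Fam m J) (b : Fin j → Fin m → ℝ)
    (c : Fin k → Fin m → ℝ) (e : Fin j' → Fin m → ℝ) (hb : ∀ l, ∑ s, |b l s| ≤ 1)
    (hc : ∀ l, ∑ s, |c l s| ≤ 1) (he : ∀ l, ∑ s, |e l s| ≤ 1) (z₁ : F.Ω → S₁) (z₂ : F.Ω → S₂)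
    (E : ℝ), (∀ ω ω', z₁ ω = z₁ ω' → Lb F b ω = Lb F b ω') →
    (∀ ω ω', z₂ ω = z₂ ω' → Lb F b ω = Lb F b ω' ∧ Lb F c ω = Lb F c ω') →
    (img F b hb (fun _ => ())).V J ≤ E → (img F c hc z₁).V J ≤ E → (img F e he z₂).V J ≤ E →
    H F.p (fun ω => fl J (mv b (F.d ω))) + CH F.p (fun ω => fl J (mv c (F.d ω))) z₁ +
      CH F.p (fun ω => fl J (mv e (F.d ω))) z₂ -
      (3 * E + (j + k + j') * Real.log 3 + (2 * j + k) * Real.log 5) ≤ CH F.p (F.X J) F.T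

/-- (LSA) Elementary facts on `ls`: what it determines.
PROOF. `ls F a s ω = ls F a s ω'` says `Lb F (r1 a i) ω = Lb F (r1 a i) ω'` for all `i ∈ s`
(`congrFun`, `Option.some_inj`; conversely `funext`, `split_ifs`). For a tuple `α` in `s`:
coordinate `l` of `Lb F (fun l => a (α l))` is the only coordinate of `Lb F (r1 a (α l))`
(as `Lb_three`). If two points have the same exact line (`F.l`), all `Lb` agree (`Lb_of_l`). -/
def LSAStmt : Prop :=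
  ∀ {m J K : ℕ} (F : Pool.KA.Fam m J) (a : Fin K → Fin m → ℝ) (s : Finset (Fin K)) (ω ω' : F.Ω),
    (ls F a s ω = ls F a s ω' ↔ ∀ i ∈ s, Lb F (r1 a i) ω = Lb F (r1 a i) ω') ∧
    (∀ {j : ℕ} (α : Fin j → Fin K), (∀ l, α l ∈ s) → ls F a s ω = ls F a s ω' →
      Lb F (fun l => a (α l)) ω = Lb F (fun l => a (α l)) ω') ∧
    (∀ t : Finset (Fin K), s ⊆ t → ls F a t ω = ls F a t ω' → ls F a s ω = ls F a s ω') ∧
    (F.l ω = F.l ω' → ls F a s ω = ls F a s ω')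

/-- (CLC) The chain in a class: `s` first, then the random block `B`, then all the remaining
functionals. Needs CLB, CHT, LSA.
PROOF. `q = cond F.p A a`, `F' = F.res A a hl` (so `F'.p = q`, the rest is unchanged by `rfl`),
`i = s.card`, `j' = m - i - 3`. First block: `σ = s.orderEmbOfFin rfl`, rows `mq b (σ l)`. Second
block: rows `mq b (B l)`, i.e. `mq (fun l => b (B l))` (`rfl`), `z₁ = ls F (mq b) s`. Third block:
a set `u` of `j'` indices disjoint from `s ∪ image B` (exists as `m ≤ K`,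
`Finset.exists_superset_card_eq`, as in `exists_compl`), rows `mq b` at its order embedding,
`z₂ = ls F (mq b) (s ∪ univ.image B)`. Apply CHT to `F'` (`ImgB` for `i`, `3`, `j'`; the side
informations are functions of the line by LSA; LSA also gives the two `Lb` hypotheses).
(1) `H q (fl J (mv σ-rows d)) ≥ H q (F.D J) - (m - i) (L + log 3) - KC m C`: `s2` in
`Pool.KRN.gen` with the complement rows of `exists_compl`; with `hD` this is
`≥ i L - η - (m - i) log 3 - KC`. (2) `CH q (fl J (mv B-rows d)) z₁ ≥ CH q (prj .. (fl J d)) z₁ -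
3 log 7` (`CH_prj`, `k1`-`k2` of `h4` in `gen`), then CLB with `k = 3`, `W = z₁` and `t`
(hypothesis `Good`, definition of `ex`). (3) `CH q (fl J (mv u-rows d)) z₂ ≥ CH q (F.D J) z₂ - KC m
C`: `CH_le_add` and `CH_inv` with `b` = all rows of `s` and `B` (determined by `z₂`) and `c` = rows
of `u`: the `m` functionals `s ∪ image B ∪ u` are in general position (`GPos.det`). Constants:
`m log 3 + 9 log 5 + (m - i) log 3 + 2 KC + 3 log 7 + log (cs 3 m G (N + 1)) + m log 7 ≤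
Cr - 2 m log 7` for `m ≥ 6`. -/
def CLCStmt : Prop :=
  ∀ {m J N G K C : ℕ} {g : ℕ → ℕ} {κ : Type} (F : Pool.KA.Fam m J), 6 ≤ m → m ≤ 7 → m ≤ K →
    Grid J N G g → ∀ (b : Mat J K m), GPos (mq b) C → ∀ t : ℝ, Good F b N G g t →
    ∀ (A : F.Ω → κ) (a : κ), 0 < law F.p A a → ∀ (hl : IsLaw (cond F.p A a)) (E η : ℝ), 0 ≤ E →
    (∀ j ≤ 3, ImgB (F.res A a hl) j E) → m * (J * Real.log 2) - η ≤
      H (cond F.p A a) (F.D J) → ∀ (s : Finset (Fin K)) (B : Fin 3 → Fin K),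
    1 ≤ s.card → s.card ≤ 3 → Function.Injective B → (∀ l, B l ∉ s) → ∀ n₀ : ℕ,
    (∀ ω, A ω = a → 0 < F.p ω → ∀ n ≤ N, fi F.p (ls F (mq b) s) F.d J 3 g n₀ ω ≤
      fi F.p (ls F (mq b) s) F.d J 3 g n ω) →
    (s.card : ℝ) * (J * Real.log 2) + CH (cond F.p A a) (F.D (g n₀)) (ls F (mq b) s) +
      3 * (((J : ℝ) - g n₀) * Real.log 2) +
      CH (cond F.p A a) (F.D J) (ls F (mq b) (s ∪ univ.image B)) ≤
      CH (cond F.p A a) (F.X J) F.T +
        (η - Real.log (law F.p A a) + t / law F.p A a + 3 * E + (Cr m N G C - 2 * (m * Real.log 7)))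

/-- (SUB) Submodularity of the entropy of the lines seen.
PROOF. With `Z' = (ls (s ∩ t), Z)`: `CH (ls (s ∪ t)) Z' ≤ CH (ls s, ls t) Z' ≤ CH (ls s) Z' +
CH (ls t) Z'` (`CH_mono`-type: `ls (s ∪ t)` is a function of the pair; `CH_subadd`), and
`CH (ls v) Z' = CH (ls v) Z - CH (ls (s ∩ t)) Z` for `v ⊇ s ∩ t` (write everything by `H`:
`CH X Z = H (X, Z) - H Z`; `H (ls v, (ls (s ∩ t), Z)) = H (ls v, Z)` by `H_congr` and LSA). The
second part: `ls F a ∅` is constant (`H_congr` with `Z`). Third part: `CH_through` (Cls.lean), i.e.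
`H (ls, Z) = H (Z, ls)`. -/
def SUBStmt : Prop :=
  ∀ {m J K : ℕ} (F : Pool.KA.Fam m J) (a : Fin K → Fin m → ℝ) (q : F.Ω → ℝ), IsLaw q →
    ∀ {S : Type} (Z : F.Ω → S),
    (∀ s t : Finset (Fin K), CH q (ls F a (s ∪ t)) Z + CH q (ls F a (s ∩ t)) Z ≤
      CH q (ls F a s) Z + CH q (ls F a t) Z) ∧
    CH q (ls F a ∅) Z = 0 ∧
    ∀ s : Finset (Fin K), CH q Z (ls F a s) = CH q (ls F a s) Z - H q (ls F a s) + H q Z

/-- (ENT) Entropies of the lines seen.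
PROOF. Induction on `s` (`Finset.induction_on`): `ls (insert i s)` is a function of
`(Lb F (r1 a i), ls s)`, `subadd`, and `Pool.KRN.H_L1`: `H q (Lb F (r1 a i)) ≤ 2 (J log 2 +
log 3)`; `ls ∅` is constant (`H_const`). Second part: `H q (F.D j) ≤ m (j log 2 + log 3)` is
`Pool.KRN.H_box`. -/
def ENTStmt : Prop :=
  ∀ {m J K : ℕ} (F : Pool.KA.Fam m J) (a : Fin K → Fin m → ℝ) (q : F.Ω → ℝ), IsLaw q →
    (∀ ω i, |F.u ω i| ≤ 1) → (∀ i, ∑ s, |a i s| ≤ 1) →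
    (∀ s : Finset (Fin K), H q (ls F a s) ≤ 2 * (s.card : ℝ) * (J * Real.log 2 + Real.log 3)) ∧
    ∀ j : ℕ, H q (F.D j) ≤ m * (j * Real.log 2 + Real.log 3)

/-- (RMT) Ramsey's theorem for `t`-subsets.
PROOF. Induction on `t`. `t = 0`: `K = R`, any subset `Y` of size `R` (`Finset.exists_subset_card_eq`)
and `n = col ∅`. Step from `t` to `t + 1` (`c` fixed; `c = 0` is trivial, there is no `col`; take
`K = R`). Claim `E(j)`: there is `K` such that for all `X` with `K ≤ X.card` and all `col` there are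
`Y ⊆ X` with `Y.card = j` and `n : ℕ → Fin c` with: for all `y ∈ Y`, `s ⊆ Y` with `s.card = t` and
`∀ z ∈ s, y < z`: `col (insert y s) = n y`. Induction on `j`: `E(0)`: `Y = ∅`. `E(j + 1)`: let `K₁`
be the number of `E(j)`, `K₂` the number of the theorem for `t` and `R = K₁`; `K = K₂ + 1`.
`x = X.min'`; apply the theorem for `t` to `X.erase x` and the colouring `s ↦ col (insert x s)`:
`Y' ⊆ X.erase x`, `Y'.card = K₁`, colour `n₀`; apply `E(j)` to `Y'`: `Y'', n''`. Take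
`Y = insert x Y''`, `n = Function.update n'' x n₀`. For `y = x` the set `s` has no element `x`
(`x < z`), so `s ⊆ Y'' ⊆ Y'`. For `y ∈ Y''`: `x < y < z`, so again `s ⊆ Y''`.
The step: take `E(c * R)`; by the pigeonhole principle
(`Finset.exists_le_card_fiber_of_mul_le_card_of_maps_to`) `R` elements of `Y` have the same colour
`n y`; a subset `Y₀` of them with `R` elements. For `s ⊆ Y₀`, `s.card = t + 1`, `y = s.min'`:
`s = insert y (s.erase y)`, so `col s = n y`. -/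
def RMTStmt : Prop :=
  ∀ t R c : ℕ, ∃ K : ℕ, ∀ X : Finset ℕ, K ≤ X.card → ∀ col : Finset ℕ → Fin c,
    ∃ Y ⊆ X, Y.card = R ∧ ∃ n : Fin c, ∀ s ⊆ Y, s.card = t → col s = n

/-- (RMC) Classes. Needs RMT.
PROOF. Let `c = N + 1`. RMT for `t = 1` and `R`: `K₁`; for `t = 2` and `K₁`: `K₂`; for `t = 3` and
`K₂`: `K₃ = K` (also take `K ≥ R`). For `ω` fixed let `col v` for `v : Finset ℕ` be an index `n ≤ N` minimising
`f (univ.filter fun i : Fin K => (i : ℕ) ∈ v) n ω` (`Finset.exists_min_image`). Apply RMT three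
times starting from `X = range K`: `Y₃ ⊇ Y₂ ⊇ Y₁`, `Y₁.card = R`, all elements `< K`.
`τ l = ⟨Y₁.orderEmbOfFin _ l, _⟩ : Fin K`, strictly monotone so injective. For
`α : Finset (Fin R)`: with `v = (α.image τ).image (↑)` (a subset of `Y₁` with `α.card` elements)
`univ.filter (fun i : Fin K => (i : ℕ) ∈ v) = α.image τ`. The value `A ω` is chosen
(`choose`). -/
def RMCStmt : Prop :=
  ∀ R N : ℕ, ∃ K : ℕ, R ≤ K ∧ ∀ {Ω : Type} (f : Finset (Fin K) → ℕ → Ω → ℝ),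
    ∃ A : Ω → (Fin R → Fin K) × (Fin 3 → Fin (N + 1)), ∀ ω, Function.Injective (A ω).1 ∧
      ∀ (i : Fin 3) (α : Finset (Fin R)), α.card = (i : ℕ) + 1 → ∀ n ≤ N,
        f (α.image (A ω).1) ((A ω).2 i : ℕ) ω ≤ f (α.image (A ω).1) n ω

/-- (AR6) The programme for `m = 6`.
PROOF. Functionals `0, .., 5`; write `x = x 0`, `y = x 1`. Put `α = {i}`, `β = {0,1,2,3} \ {i}`,
`i ≤ 3`: `4 L + M 0 {i} - Ls {i} + 3 x + Ee {0,1,2,3} ≤ S + W`; `Ls {i} ≤ 2 L + W`. Sum over `i`, with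
`M 0 {0} + M 0 {1} ≥ M 0 {0,1} ≥ Ls {0,1} - 6 x - W` (disjoint sets, `M ∅ = 0`) and the same for
`{2,3}`: `4 S + 10 W ≥ 8 L + Ls {0,1} + Ls {2,3} + 4 Ee {0,1,2,3}`. Pairs: `α = {0,1}`, `β = {2,3,4}`
and `α = {2,3}`, `β = {0,1,4}`: `5 L + M 1 α - Ls α + 3 y ≤ S + W` (`Ee ≥ 0`), sum with
`M 1 {0,1} + M 1 {2,3} ≥ M 1 {0,1,2,3} ≥ Ls {0,1,2,3} - 6 y - W`:
`2 S + 3 W ≥ 10 L + Ls {0,1,2,3} - Ls {0,1} - Ls {2,3}`. Sum: `6 S + 13 W ≥ 18 L + Ls {0,1,2,3} +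
Ee {0,1,2,3} ≥ 24 L - W`, so `4 L ≤ S + (14/6) W`. (`linarith` with the named instances; set
identities by `decide`.) -/
def AR6Stmt : Prop := LPB 6 4

/-- (AR7) The programme for `m = 7`.
PROOF. Functionals `0, .., 4` (cyclic) and `5, 6`. For `c` in `Z/5`: `P_c = {c, c+1}`,
`R_c = {c, c+2}`, `T_c = {c, c+1, c+2}`, `Q_c = {c, c+1, c+2, c+3}`, `V = {0,..,4}`.
`x = x 0`, `y = x 1`, `z = x 2`.
(i) `i = c, c+1`, `α = {i}`, `β = Q_c \ {i}`: `4 L + M 0 {i} - Ls {i} + 4 x + Ee Q_c ≤ S + W`,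
`Ls {i} ≤ 2 L + W`, `M 0 {c} + M 0 {c+1} ≥ M 0 P_c ≥ Ls P_c - 7 x - W`, `x ≥ 0`:
`2 S + 5 W ≥ 4 L + Ls P_c + 2 Ee Q_c`.
(ii) `α = P_c` or `R_c`, `β = V \ α`: `5 L + M 1 α - Ls α + 4 y + Ee V ≤ S + W`. Weights 6 for `P_c`,
1 for `R_c`. `M 1 P_c + M 1 P_(c+1) + M 1 R_c ≥ 2 M 1 T_c` (two submodularities:
`P_c ∪ P_(c+1) = T_c`, `P_c ∩ P_(c+1) = {c+1}`; then `{c+1} ∪ R_c = T_c`, `{c+1} ∩ R_c = ∅`);
`M 1 P_c + M 1 P_(c+2) ≥ M 1 Q_c`, used twice. `M 1 T_c ≥ Ls T_c - 7 y - W`,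
`M 1 Q_c ≥ Ls Q_c - 7 y - W`. Sum over `c` (20 times `7 y` against 35 times `4 y`: cancels):
`35 S + 55 W ≥ 175 L + 2 ∑ Ls T_c + 2 ∑ Ls Q_c - ∑ (6 Ls P_c + Ls R_c) + 35 Ee V`.
(iii) `α = T_c`, `β` = three of the other four (for instance the two others of `V` and `5`; use only
`Ee ≥ 0`): `6 L + M 2 T_c - Ls T_c + 4 z ≤ S + W`. `∑_c M 2 T_c ≥ 3 M 2 V ≥ 3 (Ls V - 7 z - W)` :
`T_0 + T_3 ≥ V + {0}` (`T_0 = {0,1,2}`, `T_3 = {3,4,0}`), `T_1 + T_4 ≥ V + {1}`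
(`{1,2,3}, {4,0,1}`), `T_2 + {0} + {1} ≥ V` (`T_2 = {2,3,4}`). Weight 2, `z ≤ L`:
`10 S + 16 W ≥ 58 L + 6 Ls V - 2 ∑ Ls T_c` (as `40 z - 42 z ≥ -2 L`).
Sum of (i) over `c`, (ii), (iii): `55 S + 96 W ≥ (20 + 175 + 58) L + ∑ (-5 Ls P_c - Ls R_c) +
2 ∑ (Ls Q_c + Ee Q_c) + 6 Ls V + 35 Ee V`; `Ls P_c, Ls R_c ≤ 4 L + W`, `Ls Q_c + Ee Q_c ≥ 7 L - W`,
`6 (Ls V + Ee V) ≥ 42 L - 6 W`: `≥ (253 - 120 + 70 + 42) L - 46 W = 245 L - 46 W`. So
`(49/11) L ≤ S + (142/55) W`. Do it in steps (one `have` per item above, `linarith` each). -/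
def AR7Stmt : Prop := LPB 7 (49 / 11)

/-- (CLM) One class. Needs CLC, SUB, ENT.
PROOF. `q = cond F.p A a`, `L = J log 2`, `W = 2 (η - log law + t / law + 3 E + Cr) ≥ 0`
(`0 ≤ t` because `Ex (ex ..) ≥ 0`: from `Good` for `s = ∅` and any injective `B`, `K ≥ m ≥ 3`; all
terms of `Cr` are `≥ 0`, `one_le_cs`). Apply the hypothesis `LPB m s` to `S = CH q (F.X J) F.T`,
`x i = g (n i) log 2` (in `[0, L]` by `Grid.le`), `M i α = CH q (ls F (mq b) (α.image τ)) (F.D (g (n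
i)))`, `Ls α = H q (ls F (mq b) (α.image τ))`, `Ee α = CH q (F.D J) (ls F (mq b) (α.image τ))`.
Submodularity: SUB with `Finset.image_union`, `Finset.image_inter` (`τ` injective);
`Ls α - m x - W ≤ M i α`: SUB third part and `CH ≥ 0` (`CH_nonneg`) give `M ≥ Ls - H q (F.D (g (n
i)))`, and ENT. `Ls ≤ 2 card L + W`: ENT (`card (α.image τ) = card α ≤ m`, `2 m log 3 ≤ W`).
`Ee ≥ H q (F.D J) - Ls` (`H (X, Y) ≥ H X`, `H_mono`) `≥ m L - η - Ls`. The inequality for `(i, α,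
β)`: CLC with `s = α.image τ`, `B = τ ∘ (β.orderEmbOfFin _)` (`univ.image B = β.image τ`), `n₀ = n
i`; `CH q (F.D x) (ls ..) = M - Ls + H q (F.D x)` by SUB and `H q (F.D (g n)) ≥ m x - η - m log 3`
by `Pool.KRN.H_trc` and `hD`. -/
def CLMStmt : Prop :=
  ∀ {m J N G K C : ℕ} {g : ℕ → ℕ} {κ : Type} (F : Pool.KA.Fam m J), 6 ≤ m → m ≤ 7 → m ≤ K →
    (∀ ω i, |F.u ω i| ≤ 1) → Grid J N G g → ∀ (b : Mat J K m), GPos (mq b) C → ∀ t : ℝ,
    Good F b N G g t → ∀ (A : F.Ω → κ) (a : κ), 0 < law F.p A a →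
    ∀ (hl : IsLaw (cond F.p A a)) (E η : ℝ), 0 ≤ E → 0 ≤ η →
    (∀ j ≤ 3, ImgB (F.res A a hl) j E) → m * (J * Real.log 2) - η ≤
      H (cond F.p A a) (F.D J) → ∀ (τ : Fin m → Fin K) (n : Fin 3 → ℕ), Function.Injective τ →
    (∀ (i : Fin 3) (α : Finset (Fin m)), α.card = (i : ℕ) + 1 → ∀ ω, A ω = a → 0 < F.p ω →
      ∀ n' ≤ N, fi F.p (ls F (mq b) (α.image τ)) F.d J 3 g (n i) ω ≤
        fi F.p (ls F (mq b) (α.image τ)) F.d J 3 g n' ω) →
    ∀ s : ℝ, LPB m s → s * (J * Real.log 2) ≤ CH (cond F.p A a) (F.X J) F.T +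
      20 * (η - Real.log (law F.p A a) + t / law F.p A a + 3 * E + Cr m N G C)

/-- (KPZ) The Kakeya inequality in dimension zero.
PROOF. `F.V J = CH F.p (F.D J) F.Z - CH F.p (F.X J) F.W - 0 * ..`; `F.D J` and `F.X J` have values in
`Fin 0 → ℤ` (one point), so both `CH` are `0` (`CH_le_add`-free: `H_congr` and `H (X, Z) = H Z`).
`θ = 1`, `J₀ = 0`, `V = 0 ≤ ε J`. -/
def KPZStmt : Prop := KP 0

/-- (EFR) The entropy bound from the linear programme. Needs GPB, GDB, RMC, CLM, KPZ.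
PROOF. Copy `Pool.KRN.clsB_pair` (H9/KRN/MainP.lean) and `ef_of_cls` (Sum.lean). Given `ε`:
`ε₄ = ε / 200 * log 2`; `N ≥ 1` with `3 log 2 / N ≤ ε₄ / 2`; `K` from RMC with `R = m`; `C, ρ, J_G`
from GPB; `Q = card (Finset (Fin K) × (Fin 3 → Fin K))`, `t = Q / ρ`; `κ = (Fin m → Fin K) × (Fin 3 →
Fin (N + 1))`. Given `c₀`: `θ'` = minimum of `ε₄` and the `θ`s of `imgB_of_KP` for `KP j`, `j ≤ 3`
(`KP 0` by KPZ; `ImgB` with `E = ε₄ J`); `J₀` so large that `J ≥ J_G`, the `J₀`s of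
`imgB_of_KP`, `-log c₀ ≤ ε₄ J`, `t / c₀ ≤ ε₄ J` and `Cr m N G C ≤ ε₄ J` for `G = J / N + 1` (as
`log (cs 3 m G) = 3 log (2 m + 1) + 3 G log 2`, `hCi` in `clsB_pair`). Given `F`: grid of
`exists_grid`, `S` from GPB, `b ∈ S` from GDB, `A` from RMC with `f v n ω = fi F.p (ls F (mq b) v)
F.d J 3 g n ω`. For a class of law `≥ c₀`: CLM with `η = ε₄ J`:
`s L ≤ CH + 20 (ε₄ J + ε₄ J + ε₄ J + 3 ε₄ J + ε₄ J) = CH + 140 ε₄ J ≤ CH + ε L`. -/
def EFRStmt : Prop :=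
  ∀ (m : ℕ) (s : ℝ), 6 ≤ m → m ≤ 7 → 0 ≤ s → KP 1 → KP 2 → KP 3 → LPB m s → EF m s

/-- (DIM) Kakeya sets in dimensions seven and eight. Needs AR6, AR7, EFR.
PROOF. `EF 6 4` and `EF 7 (49 / 11)` by EFR with `Pool.KAL.KP1.kp_one`, `Pool.K2S.kp_2`,
`Pool.PB.kp3_thm`; then as `dens_six`, `dim_seven` in H9/KRN/Top.lean:
`Pool.KRN73.geoOne 6 4`, `t_geo2 6 2`; `Pool.KRN73.geoOne 7 (49 / 11)`, `t_geo2 7 (28 / 11)`
(`7 + 1 - 28 / 11 = 60 / 11`). -/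
def DIMStmt : Prop :=
  (∀ K : Set (EuclideanSpace ℝ (Fin (6 + 1))),
    (∀ e : EuclideanSpace ℝ (Fin (6 + 1)), ‖e‖ = 1 →
      ∃ x : EuclideanSpace ℝ (Fin (6 + 1)), ∀ t : ℝ, 0 ≤ t → t ≤ 1 → x + t • e ∈ K) →
    ENNReal.ofReal 5 ≤ dimH K) ∧
  ∀ K : Set (EuclideanSpace ℝ (Fin (7 + 1))),
    (∀ e : EuclideanSpace ℝ (Fin (7 + 1)), ‖e‖ = 1 →
      ∃ x : EuclideanSpace ℝ (Fin (7 + 1)), ∀ t : ℝ, 0 ≤ t → t ≤ 1 → x + t • e ∈ K) →
    ENNReal.ofReal (60 / 11) ≤ dimH K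

end Pool.RF
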